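import Pool.Agent.H58.BL.Stm2

/-!
# Project BL, piece POW: in the real case the dimension of a minimal space is a power of two

The finiteness of `G / NV` is not needed: finitely many elements of `G` span the same space of
operators as `G`.
-/

set_option autoImplicit false

open Finset Module

namespace Pool.Agent.H79.BL

open Pool.Agent.H58 Pool.Agent.H58.BL

variable {E : Type*} [NormedAddCommGroup E] [InnerProductSpace ℝ E] [FiniteDimensional ℝ E]

/-- invariant for the elements of a list -/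
def InvL (l : List (E ≃ₗᵢ[ℝ] E)) (U : Submodule ℝ E) : Prop := ∀ g ∈ l, ∀ x ∈ U, g x ∈ U

/-- minimal invariant for the elements of a list -/
def MinL (l : List (E ≃ₗᵢ[ℝ] E)) (W : Submodule ℝ E) : Prop :=
  InvL l W ∧ W ≠ ⊥ ∧ ∀ W' : Submodule ℝ E, W' ≤ W → InvL l W' → W' ≠ ⊥ → W' = W

theorem exists_minL {l : List (E ≃ₗᵢ[ℝ] E)} {V : Submodule ℝ E}
    (hV : InvL l V) (h0 : V ≠ ⊥) : ∃ W ≤ V, MinL l W := by
  classical
  have hex : ∃ d : ℕ, ∃ W ≤ V, InvL l W ∧ W ≠ ⊥ ∧ finrank ℝ W = d :=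
    ⟨_, V, le_rfl, hV, h0, rfl⟩
  obtain ⟨W, hWV, hW, hW0, hd⟩ := Nat.find_spec hex
  refine ⟨W, hWV, hW, hW0, ?_⟩
  intro W' hle hW' hW'0
  apply Submodule.eq_of_le_of_finrank_le hle
  rw [hd]
  exact Nat.find_min' hex ⟨W', hle.trans hWV, hW', hW'0, rfl⟩

theorem step {V : Submodule ℝ E} {g : E ≃ₗᵢ[ℝ] E} {l : List (E ≃ₗᵢ[ℝ] E)}
    (h1 : ∀ h ∈ l, ∃ ε : ℝ, ∀ v ∈ V, h (g v) = ε • g (h v))
    (h2 : ∃ ε : ℝ, ∀ v ∈ V, g (g v) = ε • v)
    (ih : ∀ W' ≤ V, MinL l W' → ∃ r : ℕ, finrank ℝ W' = 2 ^ r)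
    {W : Submodule ℝ E} (hWV : W ≤ V) (hW : MinL (g :: l) W) : ∃ r : ℕ, finrank ℝ W = 2 ^ r := by
  obtain ⟨hWi, hW0, hWm⟩ := hW
  have hgW : ∀ x ∈ W, g x ∈ W := hWi g List.mem_cons_self
  have hlW : InvL l W := fun h hh x hx => hWi h (List.mem_cons_of_mem _ hh) x hx
  obtain ⟨W', hW'W, hW'⟩ := exists_minL hlW hW0
  obtain ⟨r, hr⟩ := ih W' (hW'W.trans hWV) hW'
  have hW'V : W' ≤ V := hW'W.trans hWV
  set W'' : Submodule ℝ E := W'.map (g.toLinearEquiv : E →ₗ[ℝ] E) with hW''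
  have hmem : ∀ w ∈ W', g w ∈ W'' := fun w hw => Submodule.mem_map_of_mem (f :=
    (g.toLinearEquiv : E →ₗ[ℝ] E)) hw
  have hmem' : ∀ x ∈ W'', ∃ w ∈ W', g w = x := by
    intro x hx
    obtain ⟨w, hw, rfl⟩ := Submodule.mem_map.mp hx
    exact ⟨w, hw, rfl⟩
  have hfr : finrank ℝ W'' = finrank ℝ W' := LinearEquiv.finrank_map_eq _ _
  have hlW'' : InvL l W'' := by
    intro h hh x hx
    obtain ⟨w, hw, rfl⟩ := hmem' x hx
    obtain ⟨ε, hε⟩ := h1 h hh
    rw [hε w (hW'V hw)]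
    exact W''.smul_mem _ (hmem _ (hW'.1 h hh w hw))
  have hU : W' ⊔ W'' = W := by
    apply hWm
    · apply sup_le hW'W
      intro x hx
      obtain ⟨w, hw, rfl⟩ := hmem' x hx
      exact hgW _ (hW'W hw)
    · intro y hy x hx
      obtain ⟨a, ha, b, hb, rfl⟩ := Submodule.mem_sup.1 hx
      rw [map_add]
      rcases List.mem_cons.mp hy with rfl | hy
      · obtain ⟨w, hw, rfl⟩ := hmem' b hb
        obtain ⟨ε, hε⟩ := h2
        rw [hε w (hW'V hw)]
        exact add_mem (Submodule.mem_sup_right (hmem _ ha))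
          (Submodule.mem_sup_left (W'.smul_mem _ hw))
      · exact Submodule.add_mem_sup (hW'.1 y hy a ha) (hlW'' y hy b hb)
    · intro h
      exact hW'.2.1 (le_bot_iff.mp (h ▸ le_sup_left))
  by_cases hc : W' ⊓ W'' = ⊥
  · have h3 := Submodule.finrank_sup_add_finrank_inf_eq W' W''
    rw [hU, hc, finrank_bot, hfr, hr, add_zero] at h3
    exact ⟨r + 1, by rw [h3, pow_succ]; ring⟩
  · have h3 : W' ⊓ W'' = W' := by
      apply hW'.2.2 _ inf_le_left _ hc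
      intro h hh x hx
      exact ⟨hW'.1 h hh x hx.1, hlW'' h hh x hx.2⟩
    have h4 : W' ≤ W'' := inf_eq_left.mp h3
    have h5 : W' = W'' := Submodule.eq_of_le_of_finrank_eq h4 hfr.symm
    rw [← h5, sup_idem] at hU
    exact ⟨r, by rw [← hU, hr]⟩

theorem power {V : Submodule ℝ E} (l : List (E ≃ₗᵢ[ℝ] E))
    (h1 : ∀ g ∈ l, ∀ h ∈ l, ∃ ε : ℝ, ∀ v ∈ V, h (g v) = ε • g (h v))
    (h2 : ∀ g ∈ l, ∃ ε : ℝ, ∀ v ∈ V, g (g v) = ε • v) :
    ∀ W ≤ V, MinL l W → ∃ r : ℕ, finrank ℝ W = 2 ^ r := by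
  induction l with
  | nil =>
    intro W _ hW
    obtain ⟨w, hw, hw0⟩ := Submodule.exists_mem_ne_zero_of_ne_bot hW.2.1
    have h3 : (Submodule.span ℝ {w}) = W := by
      apply hW.2.2
      · rwa [Submodule.span_singleton_le_iff_mem]
      · intro g hg
        exact absurd hg List.not_mem_nil
      · rw [Ne, Submodule.span_singleton_eq_bot]
        exact hw0
    exact ⟨0, by rw [← h3, finrank_span_singleton hw0, pow_zero]⟩
  | cons g l ih =>
    intro W hWV hW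
    refine step (fun h hh => h1 g List.mem_cons_self h (List.mem_cons_of_mem _ hh))
      (h2 g List.mem_cons_self) (ih (fun a ha b hb => h1 a (List.mem_cons_of_mem _ ha) b
        (List.mem_cons_of_mem _ hb)) (fun a ha => h2 a (List.mem_cons_of_mem _ ha))) hWV hW

/-- finitely many elements with the same invariant subspaces -/
theorem exists_list (G : Subgroup (E ≃ₗᵢ[ℝ] E)) : ∃ l : List (E ≃ₗᵢ[ℝ] E), (∀ g ∈ l, g ∈ G) ∧
    ∀ U : Submodule ℝ E, InvL l U → AG.Inv G U := by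
  classical
  set A : Set (E →ₗ[ℝ] E) := {T | ∃ g ∈ G, AG.lin g = T} with hA
  obtain ⟨s, hsA, hs⟩ := (Submodule.fg_span_iff_fg_span_finset_subset (R := ℝ) A).mp
    (IsNoetherian.noetherian _)
  have h1 : ∀ T ∈ s, ∃ g : E ≃ₗᵢ[ℝ] E, g ∈ G ∧ AG.lin g = T := by
    intro T hT
    obtain ⟨g, hg, hgT⟩ := hsA hT
    exact ⟨g, hg, hgT⟩
  choose! f hf using h1
  refine ⟨s.toList.map f, ?_, ?_⟩
  · intro g hg
    obtain ⟨T, hT, rfl⟩ := List.mem_map.mp hg
    exact (hf T (Finset.mem_toList.mp hT)).1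
  · intro U hU g hg x hx
    have h2 : AG.lin g ∈ Submodule.span ℝ (s : Set (E →ₗ[ℝ] E)) := by
      rw [← hs]
      exact Submodule.subset_span ⟨g, hg, rfl⟩
    have h3 : ∀ T ∈ Submodule.span ℝ (s : Set (E →ₗ[ℝ] E)), T x ∈ U := by
      intro T hT
      induction hT using Submodule.span_induction with
      | mem T hT =>
        have h4 := hU (f T) (List.mem_map.mpr ⟨T, Finset.mem_toList.mpr hT, rfl⟩) x hx
        have h5 := (hf T hT).2
        rw [← h5]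
        exact h4
      | zero => exact U.zero_mem
      | add a b _ _ ha hb => exact U.add_mem ha hb
      | smul c a _ ha => exact U.smul_mem c ha
    exact h3 _ h2

theorem t_pow : S_POW := by
  intro _ n G V hV hG hR
  have hcomm : ∀ g ∈ G, ∀ h ∈ G, ∃ ε : ℝ, ε * ε = 1 ∧ ∀ v ∈ V, g (h v) = ε • h (g v) := by
    intro g hg h hh
    have hcG : g * h * g⁻¹ * h⁻¹ ∈ G :=
      G.mul_mem (G.mul_mem (G.mul_mem hg hh) (G.inv_mem hg)) (G.inv_mem hh)
    have hcN : g * h * g⁻¹ * h⁻¹ ∈ NV G V := by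
      refine ⟨hcG, ?_⟩
      intro k hk v _
      have h1 := hG g hg h hh k hk
      exact congrArg (fun T : EuclideanSpace ℝ (Fin n) ≃ₗᵢ[ℝ] EuclideanSpace ℝ (Fin n) => T v) h1
    have h2 : ∀ v, g (h v) = (g * h * g⁻¹ * h⁻¹) (h (g v)) := by
      intro v
      have h3 : g * h = (g * h * g⁻¹ * h⁻¹) * (h * g) := by group
      exact congrArg (fun T : EuclideanSpace ℝ (Fin n) ≃ₗᵢ[ℝ] EuclideanSpace ℝ (Fin n) => T v) h3
    have hmem : ∀ v ∈ V, h (g v) ∈ V := fun v hv => hV.1 h hh _ (hV.1 g hg v hv)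
    rcases hR _ hcN with h4 | h4
    · refine ⟨1, by norm_num, fun v hv => ?_⟩
      rw [h2 v, h4 _ (hmem v hv), one_smul]
    · refine ⟨-1, by norm_num, fun v hv => ?_⟩
      rw [h2 v, h4 _ (hmem v hv), neg_one_smul]
  have hsq : ∀ g ∈ G, ∃ ε : ℝ, ∀ v ∈ V, g (g v) = ε • v := by
    intro g hg
    have hN : g * g ∈ NV G V := by
      refine ⟨G.mul_mem hg hg, ?_⟩
      intro h hh v hv
      obtain ⟨ε, hε, h1⟩ := hcomm g hg h hh
      change g (g (h v)) = h (g (g v))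
      rw [h1 v hv, map_smul, h1 (g v) (hV.1 g hg v hv), smul_smul, hε, one_smul]
    rcases hR _ hN with h4 | h4
    · refine ⟨1, fun v hv => ?_⟩
      rw [one_smul]
      exact h4 v hv
    · refine ⟨-1, fun v hv => ?_⟩
      rw [neg_one_smul]
      exact h4 v hv
  obtain ⟨l, hl, hlG⟩ := exists_list G
  refine power (V := V) l (fun g hg h hh => ?_) (fun g hg => hsq g (hl g hg)) V le_rfl ?_
  · obtain ⟨ε, _, h1⟩ := hcomm h (hl h hh) g (hl g hg)
    exact ⟨ε, h1⟩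
  · refine ⟨fun g hg x hx => hV.1 g (hl g hg) x hx, hV.2.1, ?_⟩
    intro W' hle hinv h0
    exact hV.2.2 W' hle (hlG W' hinv) h0

end Pool.Agent.H79.BL
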